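import Mathlib

set_option autoImplicit false

namespace Pool.Agent.Q288.AP

/-- growth of the ratio along the recursion `2 x' = x² + 3 x` -/
theorem growth {x y : ℕ → ℕ} (hx : ∀ j, 2 * x (j + 1) = x j ^ 2 + 3 * x j)
    (hy : ∀ j, 2 * y (j + 1) = y j ^ 2 + 3 * y j) (h0 : y 0 < x 0) (h1 : 0 < y 0) :
    ∃ j₀, ∀ i, 0 < y (j₀ + i) ∧ (4 * 2 ^ (2 ^ i) : ℝ) * y (j₀ + i) ≤ x (j₀ + i) := by
  have hpos : ∀ j, 0 < y j := by
    intro j
    induction j with
    | zero => exact h1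
    | succ j ih =>
      have := hy j
      nlinarith
  have hlt : ∀ j, y j < x j := by
    intro j
    induction j with
    | zero => exact h0
    | succ j ih =>
      have h2 := hx j
      have h3 := hy j
      nlinarith
  have hxr : ∀ j, (x (j + 1) : ℝ) = (x j ^ 2 + 3 * x j) / 2 := by
    intro j
    have : (2 * x (j + 1) : ℝ) = x j ^ 2 + 3 * x j := by exact_mod_cast hx j
    linarith
  have hyr : ∀ j, (y (j + 1) : ℝ) = (y j ^ 2 + 3 * y j) / 2 := by
    intro j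
    have : (2 * y (j + 1) : ℝ) = y j ^ 2 + 3 * y j := by exact_mod_cast hy j
    linarith
  have hposr : ∀ j, (1 : ℝ) ≤ y j := fun j => by exact_mod_cast hpos j
  have hltr : ∀ j, (y j : ℝ) + 1 ≤ x j := fun j => by exact_mod_cast hlt j
  have hstep : ∀ j, (5 / 4 : ℝ) ^ j * ((x 0 - y 0 : ℝ) * y j) ≤ y 0 * (x j - y j) := by
    intro j
    induction j with
    | zero => simp only [pow_zero, one_mul]; exact (mul_comm _ _).le
    | succ j ih =>
      have e1 : ((5 / 4 : ℝ) ^ (j + 1)) * ((x 0 - y 0 : ℝ) * y (j + 1)) =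
          ((5 / 4 : ℝ) ^ j * ((x 0 - y 0 : ℝ) * y j)) * ((5 / 4) * (y j + 3) / 2) := by
        rw [hyr]; ring
      have e2 : (y 0 : ℝ) * (x (j + 1) - y (j + 1)) = (y 0 * (x j - y j)) * ((x j + y j + 3) / 2) := by
        rw [hxr, hyr]; ring
      rw [e1, e2]
      have h4 := hposr j
      have h5 := hltr j
      have h6 := hposr 0
      apply mul_le_mul ih _ (by positivity)
      · apply mul_nonneg
        · linarith
        · linarith
      · linarith
  obtain ⟨j₀, hj₀⟩ := pow_unbounded_of_one_lt ((7 * y 0 : ℝ) / (x 0 - y 0)) (by norm_num : (1 : ℝ) < 5 / 4)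
  have hd : (0 : ℝ) < x 0 - y 0 := by linarith [hltr 0]
  rw [div_lt_iff₀ hd] at hj₀
  have hstart : (8 : ℝ) * y j₀ ≤ x j₀ := by
    have h2 := hstep j₀
    have h3 := hposr 0
    have h4 := hposr j₀
    have h5 : (7 * y 0 : ℝ) * y j₀ ≤ (5 / 4 : ℝ) ^ j₀ * ((x 0 - y 0 : ℝ) * y j₀) := by
      rw [← mul_assoc]
      exact mul_le_mul_of_nonneg_right hj₀.le (by linarith)
    have h6 : (y 0 : ℝ) * (7 * y j₀) ≤ y 0 * (x j₀ - y j₀) := by linarith
    have h7 := le_of_mul_le_mul_left h6 (by linarith)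
    linarith
  refine ⟨j₀, fun i => ⟨hpos _, ?_⟩⟩
  induction i with
  | zero =>
    simp only [pow_zero, pow_one, add_zero]
    linarith
  | succ i ih =>
    rw [← add_assoc, hxr, hyr]
    have h4 := hposr (j₀ + i)
    set R : ℝ := 4 * 2 ^ (2 ^ i) with hR
    have hR' : (4 : ℝ) * 2 ^ (2 ^ (i + 1)) = R ^ 2 / 4 := by
      rw [hR, pow_succ 2 i, pow_mul]
      ring
    have hRpos : 0 < R := by positivity
    rw [hR']
    have h5 : R ^ 2 * (y (j₀ + i) : ℝ) ^ 2 ≤ (x (j₀ + i) : ℝ) ^ 2 := by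
      rw [← mul_pow]
      apply pow_le_pow_left₀ (by positivity) ih
    nlinarith [mul_nonneg (sq_nonneg R) (by linarith : (0 : ℝ) ≤ (y (j₀ + i) : ℝ) - 1),
      mul_pos (pow_pos hRpos 2) (by linarith : (0 : ℝ) < (y (j₀ + i) : ℝ))]

/-- an approximate inequality along the tower implies the exact one at the bottom -/
theorem le_of_approx {x y : ℕ → ℕ} (hx : ∀ j, 2 * x (j + 1) = x j ^ 2 + 3 * x j)
    (hy : ∀ j, 2 * y (j + 1) = y j ^ 2 + 3 * y j) {S : ℕ → ℝ} {M : ℝ} (hM : 1 ≤ M)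
    (hS0 : ∀ j, 0 ≤ S j) (hS : ∀ j, S j ≤ M ^ (2 ^ j))
    (h : ∀ ε : ℝ, 0 < ε → ∃ C : ℝ, ∀ j, (x j : ℝ) ≤ C * S j ^ ε * y j) : x 0 ≤ y 0 := by
  by_contra hcon
  push Not at hcon
  rcases Nat.eq_zero_or_pos (y 0) with h0 | h0
  · obtain ⟨C, hC⟩ := h 1 one_pos
    have := hC 0
    rw [h0, Nat.cast_zero, mul_zero] at this
    have h1 : (0 : ℝ) < x 0 := by exact_mod_cast (by omega : 0 < x 0)
    linarith
  · obtain ⟨j₀, hj₀⟩ := growth hx hy hcon h0
    set A : ℝ := M ^ (2 ^ j₀) with hA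
    have hA1 : 1 ≤ A := one_le_pow₀ hM
    -- the exponent
    have hlim : Filter.Tendsto (fun ε : ℝ => A ^ ε) (nhdsWithin 0 (Set.Ioi 0)) (nhds 1) := by
      have h3 : Filter.Tendsto (fun ε : ℝ => A ^ ε) (nhds 0) (nhds (A ^ (0 : ℝ))) := by
        apply ContinuousAt.tendsto
        apply ContinuousAt.rpow continuousAt_const continuous_id.continuousAt
        left; linarith
      rw [Real.rpow_zero] at h3
      exact h3.mono_left nhdsWithin_le_nhds
    have hev : ∀ᶠ ε : ℝ in nhdsWithin 0 (Set.Ioi 0), A ^ ε < 3 / 2 :=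
      hlim.eventually (gt_mem_nhds (by norm_num))
    obtain ⟨ε, hε, hε0⟩ := (hev.and self_mem_nhdsWithin).exists
    obtain ⟨C, hC⟩ := h ε hε0
    have hkey : ∀ i : ℕ, (4 : ℝ) * (4 / 3) ^ (2 ^ i) ≤ max C 0 := by
      intro i
      obtain ⟨h1, h2⟩ := hj₀ i
      have h3 := hC (j₀ + i)
      have hyp : (0 : ℝ) < y (j₀ + i) := by exact_mod_cast h1
      have h4 : S (j₀ + i) ^ ε ≤ (3 / 2) ^ (2 ^ i) := by
        calc S (j₀ + i) ^ ε ≤ (M ^ (2 ^ (j₀ + i))) ^ ε :=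
              Real.rpow_le_rpow (hS0 _) (hS _) (le_of_lt hε0)
          _ = (A ^ ε) ^ (2 ^ i) := by
              rw [hA, pow_add, pow_mul, ← Real.rpow_natCast _ (2 ^ i), ← Real.rpow_natCast _ (2 ^ i),
                ← Real.rpow_mul (by positivity), ← Real.rpow_mul (by positivity), mul_comm]
          _ ≤ (3 / 2) ^ (2 ^ i) := by
              apply pow_le_pow_left₀ _ hε.le
              exact Real.rpow_nonneg (by linarith) _
      have h5 : (4 * 2 ^ (2 ^ i) : ℝ) * y (j₀ + i) ≤ (max C 0 * (3 / 2) ^ (2 ^ i)) * y (j₀ + i) := by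
        calc (4 * 2 ^ (2 ^ i) : ℝ) * y (j₀ + i) ≤ x (j₀ + i) := h2
          _ ≤ C * S (j₀ + i) ^ ε * y (j₀ + i) := h3
          _ ≤ max C 0 * S (j₀ + i) ^ ε * y (j₀ + i) := by
              apply mul_le_mul_of_nonneg_right _ hyp.le
              apply mul_le_mul_of_nonneg_right (le_max_left _ _)
              exact Real.rpow_nonneg (hS0 _) _
          _ ≤ (max C 0 * (3 / 2) ^ (2 ^ i)) * y (j₀ + i) := by
              apply mul_le_mul_of_nonneg_right _ hyp.le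
              apply mul_le_mul_of_nonneg_left h4 (le_max_right _ _)
      have h6 := le_of_mul_le_mul_right h5 hyp
      have h7 : (2 : ℝ) ^ (2 ^ i) = (4 / 3) ^ (2 ^ i) * (3 / 2) ^ (2 ^ i) := by
        rw [← mul_pow]; norm_num
      have h8 : (0 : ℝ) < (3 / 2) ^ (2 ^ i) := by positivity
      rw [h7, ← mul_assoc] at h6
      exact le_of_mul_le_mul_right h6 h8
    obtain ⟨n, hn⟩ := pow_unbounded_of_one_lt (max C 0) (by norm_num : (1 : ℝ) < 4 / 3)
    have h1 := hkey n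
    have h2 : (4 / 3 : ℝ) ^ n ≤ (4 / 3) ^ (2 ^ n) :=
      pow_le_pow_right₀ (by norm_num) Nat.lt_two_pow_self.le
    have h3 : (0 : ℝ) < (4 / 3) ^ (2 ^ n) := by positivity
    linarith

/-- equality at the bottom from approximate equality along the tower -/
theorem eq_of_approx {x y : ℕ → ℕ} (hx : ∀ j, 2 * x (j + 1) = x j ^ 2 + 3 * x j)
    (hy : ∀ j, 2 * y (j + 1) = y j ^ 2 + 3 * y j) {S : ℕ → ℝ} {M : ℝ} (hM : 1 ≤ M)
    (hS0 : ∀ j, 0 ≤ S j) (hS : ∀ j, S j ≤ M ^ (2 ^ j))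
    (h : ∀ ε : ℝ, 0 < ε → ∃ C : ℝ, ∀ j, (x j : ℝ) ≤ C * S j ^ ε * y j ∧
      (y j : ℝ) ≤ C * S j ^ ε * x j) : x 0 = y 0 := by
  apply le_antisymm
  · apply le_of_approx hx hy hM hS0 hS
    intro ε hε
    obtain ⟨C, hC⟩ := h ε hε
    exact ⟨C, fun j => (hC j).1⟩
  · apply le_of_approx hy hx hM hS0 hS
    intro ε hε
    obtain ⟨C, hC⟩ := h ε hε
    exact ⟨C, fun j => (hC j).2⟩

end Pool.Agent.Q288.AP
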