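import Pool.Agent.Q288.AP.Num
import Pool.Agent.Q259.BW.Bij

set_option autoImplicit false

namespace Pool.Agent.Q288.AP

open Pool.Agent.Q259.BW Pool.Agent.Q90.WR

/-- `a ≤ C s^ε b` and `b ≤ C s^ε a`. -/
def Near (C ε : ℝ) (s a b : ℕ) : Prop :=
  (a : ℝ) ≤ C * (s : ℝ) ^ ε * b ∧ (b : ℝ) ≤ C * (s : ℝ) ^ ε * a

theorem near_self {ε : ℝ} (hε : 0 ≤ ε) {s : ℕ} (hs : 1 ≤ s) (a : ℕ) : Near 1 ε s a a := by
  have h1 : (1 : ℝ) ≤ (s : ℝ) ^ ε := Real.one_le_rpow (by exact_mod_cast hs) hε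
  have h2 : (0 : ℝ) ≤ a := Nat.cast_nonneg a
  constructor <;> nlinarith

variable {p : ℕ} [hp : Fact p.Prime] {O : ValuationSubring ℂ}

theorem card_D (X : Dat) : ∀ j : ℕ, Nat.card (Dat.wr^[j] X).D = Nat.card X.D ^ 2 ^ j := by
  intro j
  induction j with
  | zero =>
    rw [pow_zero, pow_one]
    rfl
  | succ j ih =>
    rw [Function.iterate_succ_apply', pow_succ, pow_mul, ← ih]
    exact card_dbl _

/-- one block -/
theorem tower (hp2 : p ≠ 2) (hpO : (p : ℂ) ∈ O.nonunits) (S : Set (ℂ ≃+* ℂ)) (X : Dat)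
    (hX : X.IsBrauer p O) (hne : X.D ≠ ⊥) (hS : X.Adm p S)
    (h : ∀ ε : ℝ, 0 < ε → ∃ C : ℝ, ∀ j, Near C ε (Nat.card (Dat.wr^[j] X).D)
      (Nat.card (Fx S ((Dat.wr^[j] X).ht0 p))) (Nat.card (Fx S ((Dat.wr^[j] X).ht0' p)))) :
    Nat.card (Fx S (X.ht0 p)) = Nat.card (Fx S (X.ht0' p)) := by
  have := hX.fin
  have hx : ∀ j, 2 * Nat.card (Fx S ((Dat.wr^[j + 1] X).ht0 p)) =
      Nat.card (Fx S ((Dat.wr^[j] X).ht0 p)) ^ 2 + 3 * Nat.card (Fx S ((Dat.wr^[j] X).ht0 p)) := by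
    intro j
    rw [Function.iterate_succ_apply']
    obtain ⟨h1, -, h3⟩ := levels_prop hp2 hpO S j X hX hne hS
    exact_mod_cast num_wr h3 h1 hp2 hpO
  have hy : ∀ j, 2 * Nat.card (Fx S ((Dat.wr^[j + 1] X).ht0' p)) =
      Nat.card (Fx S ((Dat.wr^[j] X).ht0' p)) ^ 2 +
        3 * Nat.card (Fx S ((Dat.wr^[j] X).ht0' p)) := by
    intro j
    rw [Function.iterate_succ_apply']
    obtain ⟨h1, -, h3⟩ := levels_prop hp2 hpO S j X hX hne hS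
    exact_mod_cast num'_wr h3 h1 hp2 hpO
  have hM : (1 : ℝ) ≤ Nat.card X.D := by
    exact_mod_cast Nat.one_le_iff_ne_zero.2 Nat.card_pos.ne'
  exact eq_of_approx (x := fun j => Nat.card (Fx S ((Dat.wr^[j] X).ht0 p)))
    (y := fun j => Nat.card (Fx S ((Dat.wr^[j] X).ht0' p))) hx hy
    (S := fun j => (Nat.card (Dat.wr^[j] X).D : ℝ)) hM (fun j => Nat.cast_nonneg _)
    (fun j => by
      rw [card_D]
      push_cast
      exact le_rfl) h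

/-- all blocks, a fixed set of automorphisms -/
theorem near_of_eq (hp2 : p ≠ 2) (hpO : (p : ℂ) ∈ O.nonunits) (S : Set (ℂ ≃+* ℂ)) (X : Dat)
    (hX : X.IsBrauer p O) (hne : X.D ≠ ⊥) (hS : X.Adm p S)
    (h : Nat.card (Fx S (X.ht0 p)) = Nat.card (Fx S (X.ht0' p))) {ε : ℝ} (hε : 0 < ε) (j : ℕ) :
    Near 1 ε (Nat.card (Dat.wr^[j] X).D)
      (Nat.card (Fx S ((Dat.wr^[j] X).ht0 p))) (Nat.card (Fx S ((Dat.wr^[j] X).ht0' p))) := by
  have := hX.fin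
  rw [eq_levels' hp2 hpO S j X hX hne hS h]
  apply near_self hε.le
  rw [card_D]
  exact Nat.one_le_iff_ne_zero.2 (pow_ne_zero _ Nat.card_pos.ne')

theorem fx_empty {G : Type} (A : Set (G → ℂ)) : Fx (∅ : Set (ℂ ≃+* ℂ)) A = A := by
  ext χ
  exact ⟨fun h => h.1, fun h => ⟨h, fun σ hσ => absurd hσ (Set.notMem_empty σ)⟩⟩

theorem adm_empty (p : ℕ) (X : Dat) : X.Adm p (∅ : Set (ℂ ≃+* ℂ)) :=
  ⟨fun σ hσ => absurd hσ (Set.notMem_empty σ), fun σ hσ => absurd hσ (Set.notMem_empty σ),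
    fun σ hσ => absurd hσ (Set.notMem_empty σ), fun σ hσ => absurd hσ (Set.notMem_empty σ)⟩

end Pool.Agent.Q288.AP
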