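import Pool.Agent.Q288.AP.Blk
import Pool.Agent.Q149.WA.Par

set_option autoImplicit false

namespace Pool.Agent.Q288.AP

open Pool.Agent.Y63.AWC (numWeights numRegularClasses)
open Pool.Agent.Q90.WR (Wr WrN)
open Pool.Agent.Q149.WA

/-- The `p`-part of the order of `G`. -/
noncomputable def pPart (p : ℕ) (G : Type) : ℕ := p ^ (Nat.card G).factorization p

theorem pPart_pos {p : ℕ} (hp : p.Prime) (G : Type) : 1 ≤ pPart p G := Nat.one_le_pow _ _ hp.pos

theorem pPart_wr {p : ℕ} (hp2 : p ≠ 2) (G : Type) [Group G] [Finite G] :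
    pPart p (Wr G) = pPart p G ^ 2 := by
  unfold pPart
  rw [Pool.Agent.Q90.WR.Wr.card, Nat.factorization_mul (by norm_num) (pow_ne_zero _ Nat.card_pos.ne'),
    Nat.factorization_pow, ← pow_mul]
  congr 1
  have h1 : (Nat.factorization 2) p = 0 := by
    rw [Nat.Prime.factorization Nat.prime_two, Finsupp.single_eq_of_ne hp2]
  simp [h1, mul_comm]

variable {p : ℕ} [hp : Fact p.Prime]

theorem awc_recursion (hp2 : p ≠ 2) : ∀ (j : ℕ) (G : Type) [Group G] [Finite G],
    2 * numRegularClasses p (WrN (j + 1) G) =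
      numRegularClasses p (WrN j G) ^ 2 + 3 * numRegularClasses p (WrN j G) ∧
    2 * numWeights p (WrN (j + 1) G) =
      numWeights p (WrN j G) ^ 2 + 3 * numWeights p (WrN j G) ∧
    pPart p (WrN (j + 1) G) = pPart p (WrN j G) ^ 2 := by
  intro j
  induction j with
  | zero =>
    intro G _ _
    exact ⟨numRegularClasses_wr (Fact.out : p.Prime) hp2, numWeights_wr hp2,
      pPart_wr hp2 G⟩
  | succ j ih =>
    intro G _ _
    exact ih (Wr G)

theorem pPart_WrN (hp2 : p ≠ 2) (G : Type) [Group G] [Finite G] (j : ℕ) :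
    pPart p (WrN j G) = pPart p G ^ 2 ^ j := by
  induction j with
  | zero => rw [pow_zero, pow_one]; rfl
  | succ j ih => rw [(awc_recursion hp2 j G).2.2, ih, ← pow_mul, pow_succ]

theorem le_one (hp2 : p ≠ 2) (G : Type) [Group G] [Finite G]
    (h : ∀ ε : ℝ, 0 < ε → ∃ C : ℝ, ∀ j : ℕ,
      (numRegularClasses p (WrN j G) : ℝ) ≤ C * (pPart p (WrN j G) : ℝ) ^ ε * numWeights p (WrN j G)) :
    numRegularClasses p G ≤ numWeights p G :=
  le_of_approx (x := fun j => numRegularClasses p (WrN j G))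
    (y := fun j => numWeights p (WrN j G))
    (fun j => (awc_recursion hp2 j G).1) (fun j => (awc_recursion hp2 j G).2.1)
    (S := fun j => (pPart p (WrN j G) : ℝ)) (M := (pPart p G : ℝ))
    (by exact_mod_cast pPart_pos hp.out G) (fun j => Nat.cast_nonneg _)
    (fun j => by
      rw [pPart_WrN hp2]
      push_cast
      exact le_rfl) h

theorem le_two (hp2 : p ≠ 2) (G : Type) [Group G] [Finite G]
    (h : ∀ ε : ℝ, 0 < ε → ∃ C : ℝ, ∀ j : ℕ,
      (numWeights p (WrN j G) : ℝ) ≤ C * (pPart p (WrN j G) : ℝ) ^ ε * numRegularClasses p (WrN j G)) :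
    numWeights p G ≤ numRegularClasses p G :=
  le_of_approx (y := fun j => numRegularClasses p (WrN j G))
    (x := fun j => numWeights p (WrN j G))
    (fun j => (awc_recursion hp2 j G).2.1) (fun j => (awc_recursion hp2 j G).1)
    (S := fun j => (pPart p (WrN j G) : ℝ)) (M := (pPart p G : ℝ))
    (by exact_mod_cast pPart_pos hp.out G) (fun j => Nat.cast_nonneg _)
    (fun j => by
      rw [pPart_WrN hp2]
      push_cast
      exact le_rfl) h

theorem closed_WrN (C : (G : Type) → Group G → Prop)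
    (hC : ∀ (G : Type) [i : Group G] [Finite G], C G i → C (Wr G) inferInstance) :
    ∀ (j : ℕ) (G : Type) [i : Group G] [Finite G], C G i →
      C (WrN j G) (Pool.Agent.Q90.WR.instGroupWrN j G) := by
  intro j
  induction j with
  | zero =>
    intro G _ _ h
    exact h
  | succ j ih =>
    intro G _ _ h
    exact ih (Wr G) (hC G h)

theorem self_le {ε : ℝ} (hε : 0 < ε) (G : Type) {a b : ℕ} (h : a ≤ b) :
    (a : ℝ) ≤ 1 * (pPart p G : ℝ) ^ ε * b := by
  have h1 := (near_self hε.le (pPart_pos hp.out G) b).1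
  exact le_trans (by exact_mod_cast h) h1

end Pool.Agent.Q288.AP
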