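import Pool.Agent.Q288.AP.Awc
import Pool.Agent.Y63.NV.Pe

set_option autoImplicit false

open scoped Classical

noncomputable section

namespace Pool.Agent.Q288.AP

open Pool.Agent.Y63.AWC (numWeights numRegularClasses pSubgroupSetoid numDefectZero)
open Pool.Agent.Y63.NV
open Pool.Agent.Q90.WR (Wr WrN)

/-- The right hand side of Navarro's equality, summed over the blocks: the sum over representatives
`Q` of the `Γ`-classes of `p`-subgroups with `GQ = Γ` of the numbers of characters of `p`-defect zero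
of `N_Γ(Q)/Q`. -/
def weightsOver (p : ℕ) {Γ : Type} [Group Γ] (G : Subgroup Γ) : ℕ :=
  ∑ᶠ c : Quotient (pSubgroupSetoid p Γ),
    if G ⊔ c.out.1 = ⊤ then
      numDefectZero p (Subgroup.normalizer (c.out.1 : Set Γ) ⧸
        c.out.1.subgroupOf (Subgroup.normalizer (c.out.1 : Set Γ))) else 0

variable (p : ℕ) [hp : Fact p.Prime] (F : Type) [Field F] [IsAlgClosed F] [CharP F p]

theorem numInvIrr_top (H : Type) [Group H] [Finite H] :
    numInvIrr F (⊤ : Subgroup H) = numRegularClasses p H := by
  rw [← lnum_unit, lreg' p F H ⊤ (pgroup_top p H), invReg_top]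

omit hp in
theorem weightsOver_top (H : Type) [Group H] : weightsOver p (⊤ : Subgroup H) = numWeights p H := by
  unfold weightsOver numWeights
  refine finsum_congr fun c => ?_
  rw [if_pos (top_sup_eq _)]

/-- the pairs of the problem -/
theorem navarro_of_awc (h : ∀ (H : Type) [Group H] [Finite H],
      numRegularClasses p H = numWeights p H)
    (Γ : Type) [Group Γ] [Finite Γ] (G : Subgroup Γ) [G.Normal] (hG : IsPGroup p (Γ ⧸ G)) :
    numInvIrr F G = weightsOver p G := by
  have hX : Closed p (fun (H : Type) (_ : Group H) => True) :=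
    ⟨fun _ _ _ _ _ _ => trivial, fun _ _ _ _ => trivial, fun _ _ _ _ _ _ => trivial⟩
  exact (free_form p F (fun _ _ => True) hX).1
    (fun H _ _ _ => (navarroSum_top p F H).2 (h H)) Γ G trivial hG

theorem navarro_approx (hp2 : p ≠ 2) :
    (∀ (Γ : Type) [Group Γ] [Finite Γ] (G : Subgroup Γ) [G.Normal], IsPGroup p (Γ ⧸ G) →
      numInvIrr F G = weightsOver p G) ↔
    (∀ ε : ℝ, 0 < ε → ∃ C : ℝ, ∀ (Γ : Type) [Group Γ] [Finite Γ] (G : Subgroup Γ) [G.Normal],
      IsPGroup p (Γ ⧸ G) → Near C ε (pPart p Γ) (numInvIrr F G) (weightsOver p G)) := by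
  constructor
  · intro h ε hε
    refine ⟨1, fun Γ _ _ G _ hG => ?_⟩
    rw [h Γ G hG]
    exact near_self hε.le (pPart_pos hp.out Γ) _
  · intro h
    apply navarro_of_awc p F
    intro H _ _
    apply le_antisymm
    · apply le_one hp2 H
      intro ε hε
      obtain ⟨C, hC⟩ := h ε hε
      refine ⟨C, fun j => ?_⟩
      have h1 := (hC (WrN j H) ⊤ (pgroup_top p _)).1
      rwa [numInvIrr_top p F, weightsOver_top] at h1
    · apply le_two hp2 H
      intro ε hε
      obtain ⟨C, hC⟩ := h ε hε
      refine ⟨C, fun j => ?_⟩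
      have h1 := (hC (WrN j H) ⊤ (pgroup_top p _)).2
      rwa [numInvIrr_top p F, weightsOver_top] at h1

theorem navarro_parity (hp2 : p ≠ 2) :
    (∀ (Γ : Type) [Group Γ] [Finite Γ] (G : Subgroup Γ) [G.Normal], IsPGroup p (Γ ⧸ G) →
      numInvIrr F G = weightsOver p G) ↔
    (∀ (Γ : Type) [Group Γ] [Finite Γ] (G : Subgroup Γ) [G.Normal], IsPGroup p (Γ ⧸ G) →
      numInvIrr F G ≡ weightsOver p G [MOD 2]) := by
  constructor
  · intro h Γ _ _ G _ hG
    rw [h Γ G hG]
  · intro h
    apply navarro_of_awc p F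
    have h1 := (Pool.Agent.Q149.WA.all_groups hp2 (fun _ _ => True) (fun _ _ _ _ => trivial)).2
      (fun H _ _ _ => by
        have h2 := h H ⊤ (pgroup_top p H)
        rwa [numInvIrr_top p F, weightsOver_top] at h2)
    exact fun H _ _ => h1 H trivial

end Pool.Agent.Q288.AP
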